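import Pool.Agent.X172.ManyS.Main

/-!
# Many non-isomorphic Steiner systems `S(n,q,2)` beyond an explicit threshold

There is an absolute constant `C` such that for all `q ≥ 3` and all `n` that satisfy the divisibility
condition (D) the number of isomorphism classes of Steiner systems `S(n,q,2)` is

* at least `2 ^ (n ^ 2 / q ^ C)`, if `q` is a prime power and `n ≥ q ^ C`;
* at least `2 ^ (n ^ 2 / q ^ (C q))`, for every `q`, if `n ≥ q ^ (C q)`.

Proof.  Take a transversal design with `K` groups of size `g` (`K` small, `g` large) and with `K` and `g`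
congruent to `1` modulo `q (q - 1)`.  All its groups and blocks are replaced by Steiner systems
`S(g,q,2)` and `S(K,q,2)`; as `q ≥ 3` there are at least two different systems on each of these sets, so
that there are at least `2 ^ (g ^ 2)` different systems `S(K g,q,2)`.  By a theorem on subsystems they all
are subsystems of Steiner systems `S(n,q,2)` when `n ≥ q ^ C K g`, and they are determined by the large
systems.  Finally the number of systems is divided by `n!`.
-/

set_option autoImplicit false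

namespace Pool.Agent.Results.MP_409a13_co.ManyNonisomorphic

open Finset

/-- `B` is a Steiner system `S(n,q,2)` on the set `Fin n` -/
def IsSteiner (n q : ℕ) (B : Finset (Finset (Fin n))) : Prop :=
  (∀ b ∈ B, b.card = q) ∧ ∀ T : Finset (Fin n), T.card = 2 → ∃! b, b ∈ B ∧ T ⊆ b

/-- Two families of subsets of `Fin n` are isomorphic if a permutation of `Fin n` maps the first one
to the second one. -/
def Isomorphic {n : ℕ} (B B' : Finset (Finset (Fin n))) : Prop :=
  ∃ σ : Equiv.Perm (Fin n), B.image (fun b => b.image σ) = B'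

lemma act_eq {n : ℕ} (σ : Equiv.Perm (Fin n)) (B : Finset (Finset (Fin n))) :
    Pool.Agent.X172.ManyS.act σ B = B.image (fun b => b.image σ) := by
  ext x
  rw [Pool.Agent.X172.ManyS.mem_act, mem_image]
  constructor
  · rintro ⟨b, hb, rfl⟩
    exact ⟨b, hb, by rw [Finset.map_eq_image]; rfl⟩
  · rintro ⟨b, hb, rfl⟩
    exact ⟨b, hb, by rw [Finset.map_eq_image]; rfl⟩

/-- There is an absolute constant `C` such that for all `q ≥ 3` the following holds with `e = C`, if
`q` is a prime power, and with `e = C q` for arbitrary `q`: for every `n ≥ q ^ e` for which the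
divisibility condition (D) holds there is a set `𝓕` of Steiner systems `S(n,q,2)`, no two of them
isomorphic, with `|𝓕| ≥ 2 ^ (n ^ 2 / q ^ e)`. -/
theorem result : ∃ C : ℕ, ∀ q e n : ℕ, 3 ≤ q → ((IsPrimePow q ∧ e = C) ∨ e = C * q) → q ^ e ≤ n →
    (∀ i < 2, (q - i).choose (2 - i) ∣ (n - i).choose (2 - i)) →
    ∃ 𝓕 : Finset (Finset (Finset (Fin n))), (∀ B ∈ 𝓕, IsSteiner n q B) ∧
      (∀ B ∈ 𝓕, ∀ B' ∈ 𝓕, B ≠ B' → ¬ Isomorphic B B') ∧ 2 ^ (n ^ 2 / q ^ e) ≤ 𝓕.card := by
  obtain ⟨C, hC⟩ := Pool.Agent.X172.ManyS.gen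
  obtain ⟨C1, hC1⟩ := Pool.Agent.W855.threshold_main
  refine ⟨max ((C1 + 1) * C) (10 ^ 7 * C), ?_⟩
  intro q e n hq he hn hD
  have hn0 : 1 ≤ n := (Nat.one_le_pow _ _ (by omega)).trans hn
  have hA : H108.Adm q n := by
    refine ⟨by simpa using hD 1 (by omega), ?_, hn0⟩
    rw [← Pool.Agent.W855.two_mul_choose', ← Pool.Agent.W855.two_mul_choose']
    exact mul_dvd_mul_left 2 (by simpa using hD 0 (by omega))
  have fin : ∀ N : ℕ, q ≤ N → Pool.Agent.X18.SEmb.Thr q N → N ^ C ≤ q ^ e →
      ∃ 𝓕 : Finset (Finset (Finset (Fin n))), (∀ B ∈ 𝓕, IsSteiner n q B) ∧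
        (∀ B ∈ 𝓕, ∀ B' ∈ 𝓕, B ≠ B' → ¬ Isomorphic B B') ∧ 2 ^ (n ^ 2 / q ^ e) ≤ 𝓕.card := by
    intro N hN hthr hNe
    obtain ⟨𝓕, h1, h2, h3⟩ := hC q N hq hN hthr n (hNe.trans hn) hA
    refine ⟨𝓕, h1, ?_, ?_⟩
    · rintro B hB B' hB' hne ⟨σ, hσ⟩
      exact hne (h2 B hB B' hB' ⟨σ, by rw [act_eq]; exact hσ⟩)
    · refine le_trans (Nat.pow_le_pow_right (by norm_num) ?_) h3
      exact Nat.div_le_div_left hNe (Nat.pow_pos (by omega))
  rcases he with ⟨hpp, rfl⟩ | rfl
  · refine fin (q ^ (C1 + 1)) (Nat.le_self_pow (by omega) q) ?_ ?_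
    · exact fun v hv hav => hC1 q hpp hq v ((Nat.pow_le_pow_right (by omega) (by omega)).trans hv) hav
    · rw [← pow_mul]
      exact Nat.pow_le_pow_right (by omega) (le_max_left _ _)
  · have h7 : 10 ^ 7 * q ≠ 0 := by positivity
    refine fin (q ^ (10 ^ 7 * q)) (Nat.le_self_pow h7 q) (fun v hv hav => H108.main3 hq hav hv) ?_
    rw [← pow_mul]
    refine Nat.pow_le_pow_right (by omega) ?_
    have h8 : 10 ^ 7 * q * C = 10 ^ 7 * C * q := by ring
    rw [h8]
    exact Nat.mul_le_mul_right _ (le_max_right _ _)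

end Pool.Agent.Results.MP_409a13_co.ManyNonisomorphic
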