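import Pool.Agent.X172.ManyS.Res

/-!
# Resolvable Steiner systems `S(n,q,2)`, `q` a prime power, beyond explicit thresholds

There is an absolute constant `C` such that for every prime power `q` there is a resolvable Steiner
system `S(n,q,2)`

* for all `n ≥ q ^ C` with `n ≡ q` or `n ≡ q ^ 2` modulo `q (q ^ 2 - 1)`;
* for all `n = (q - 1) r + 1 ≥ q ^ (C q)` such that `q` divides `r - 1` and `q + 1` divides `r (r - 1)`.

Proof.  Let `r = (n - 1) / (q - 1)`; by the hypotheses there is a Steiner system `S(r,q+1,2)`.  Replace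
every point `x` by `q - 1` points, add one point `∞`, and put on `∞` and the points above a block `A` an
affine plane of order `q`, such that the lines through `∞` consist of `∞` and the points above a point of
`A`.  The lines of these planes form a Steiner system `S(n,q,2)`.  For every `x` the line above `x` and
the lines parallel to it in the planes of the blocks `A` through `x` form a parallel class.
-/

set_option autoImplicit false

namespace Pool.Agent.Results.MP_409a13_co.Resolvable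

open Finset

/-- `B` is a Steiner system `S(n,q,2)` on the set `Fin n` -/
def IsSteiner (n q : ℕ) (B : Finset (Finset (Fin n))) : Prop :=
  (∀ b ∈ B, b.card = q) ∧ ∀ T : Finset (Fin n), T.card = 2 → ∃! b, b ∈ B ∧ T ⊆ b

/-- The family `B` is resolvable: it can be partitioned into families `P` (parallel classes) such that
every point is in exactly one member of `P`. -/
def IsResolvable (n : ℕ) (B : Finset (Finset (Fin n))) : Prop :=
  ∃ 𝓟 : Finset (Finset (Finset (Fin n))), (∀ P ∈ 𝓟, P ⊆ B ∧ ∀ x, ∃! b, b ∈ P ∧ x ∈ b) ∧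
    ∀ b ∈ B, ∃! P, P ∈ 𝓟 ∧ b ∈ P

lemma steiner_of {n q : ℕ} {B : Finset (Finset (Fin n))} (h : Pool.Agent.X172.Res.IsSt (Fin n) q B) :
    IsSteiner n q B := by
  refine ⟨h.1, fun T hT => ?_⟩
  obtain ⟨x, y, hxy, rfl⟩ := card_eq_two.1 hT
  obtain ⟨b, ⟨hb, hx, hy⟩, hu⟩ := h.2 x y hxy
  refine ⟨b, ⟨hb, by rw [insert_subset_iff, singleton_subset_iff]; exact ⟨hx, hy⟩⟩, ?_⟩
  rintro c ⟨hc, hT'⟩
  rw [insert_subset_iff, singleton_subset_iff] at hT'
  exact hu c ⟨hc, hT'⟩

/-- There is an absolute constant `C` such that for every prime power `q` and every `n` there is a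
resolvable Steiner system `S(n,q,2)` if

* `n ≥ q ^ C` and `n ≡ q` or `n ≡ q ^ 2` modulo `q (q ^ 2 - 1)`, or
* `n ≥ q ^ (C q)` and `n = (q - 1) r + 1` with `q ∣ r - 1` and `q + 1 ∣ r (r - 1)`. -/
theorem result : ∃ C : ℕ, ∀ q n : ℕ, IsPrimePow q →
    ((q ^ C ≤ n ∧ (n ≡ q [MOD q * (q ^ 2 - 1)] ∨ n ≡ q ^ 2 [MOD q * (q ^ 2 - 1)])) ∨
      (q ^ (C * q) ≤ n ∧ ∃ r : ℕ, n = (q - 1) * r + 1 ∧ q ∣ r - 1 ∧ q + 1 ∣ r * (r - 1))) →
    ∃ B : Finset (Finset (Fin n)), IsSteiner n q B ∧ IsResolvable n B := by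
  obtain ⟨C0, hC0⟩ := Pool.Agent.W865.SS.plus_one
  refine ⟨2 * C0 + 4 * 10 ^ 7 + 3, ?_⟩
  intro q n hq h
  have hq2 : 2 ≤ q := hq.two_le
  have hq12 : q + 1 ≤ q ^ 2 := by nlinarith
  have main : ∀ r : ℕ, n = (q - 1) * r + 1 → H108.IG {q + 1} 1 r 0 →
      ∃ B : Finset (Finset (Fin n)), IsSteiner n q B ∧ IsResolvable n B := by
    intro r hn hIG
    obtain ⟨𝓐, h1, h2⟩ := Pool.Agent.W865.SS.steiner_of_ig hIG
    obtain ⟨B, hB1, hB2⟩ := Pool.Agent.X172.Res.res_of hq h1 h2 hn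
    exact ⟨B, steiner_of hB1, hB2⟩
  -- a lower bound for r
  have low : ∀ r e : ℕ, n = (q - 1) * r + 1 → q ^ (e + 1) ≤ n → q ^ e ≤ r := by
    intro r e hn he
    by_contra hcon
    push Not at hcon
    have h1 : (q - 1) * r + 1 ≤ (q - 1) * (r + 1) + 0 := by
      have : 1 ≤ q - 1 := by omega
      nlinarith
    have h2 : (q - 1) * (r + 1) ≤ (q - 1) * q ^ e := Nat.mul_le_mul_left _ hcon
    have h3 : (q - 1) * q ^ e < q ^ (e + 1) := by
      rw [pow_succ, mul_comm (q ^ e) q]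
      exact Nat.mul_lt_mul_of_pos_right (by omega) (by positivity)
    omega
  rcases h with ⟨hn, hmod⟩ | ⟨hn, r, hr, h1, h2⟩
  · -- the two residue classes
    have hqn : q ^ 2 ≤ n := (Nat.pow_le_pow_right (by omega) (by omega)).trans hn
    have hqq : q ≤ q ^ 2 := Nat.le_self_pow (by norm_num) q
    obtain ⟨l, rfl⟩ : ∃ l, q = l + 1 := ⟨q - 1, by omega⟩
    have hsq : (l + 1) ^ 2 - 1 = l * (l + 2) := by
      have : (l + 1) ^ 2 = l * (l + 2) + 1 := by ring
      omega
    have hr : ∃ r, n = l * r + 1 ∧ (r ≡ 1 [MOD (l + 2) * (l + 1)] ∨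
        r ≡ l + 2 [MOD (l + 2) * (l + 1)]) := by
      rcases hmod with hmod | hmod
      · obtain ⟨k, hk⟩ := (Nat.modEq_iff_dvd' (by omega)).1 hmod.symm
        rw [hsq] at hk
        refine ⟨(l + 2) * (l + 1) * k + 1, ?_, Or.inl ?_⟩
        · have e1 : l * ((l + 2) * (l + 1) * k + 1) + 1 =
            (l + 1) * (l * (l + 2)) * k + (l + 1) := by ring
          omega
        · exact (Nat.modEq_iff_dvd' (by omega)).2 ⟨k, by rw [Nat.add_sub_cancel]⟩ |>.symm
      · obtain ⟨k, hk⟩ := (Nat.modEq_iff_dvd' hqn).1 hmod.symm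
        rw [hsq] at hk
        refine ⟨(l + 2) * (l + 1) * k + (l + 2), ?_, Or.inr ?_⟩
        · have e1 : l * ((l + 2) * (l + 1) * k + (l + 2)) + 1 =
            (l + 1) * (l * (l + 2)) * k + (l + 1) ^ 2 := by ring
          omega
        · exact (Nat.modEq_iff_dvd' (by omega)).2 ⟨k, by rw [Nat.add_sub_cancel]⟩ |>.symm
    obtain ⟨r, hr1, hr2⟩ := hr
    refine main r hr1 ?_
    have hrC : (l + 2) ^ C0 ≤ r := by
      refine le_trans ?_ (low r (2 * C0) hr1
        ((Nat.pow_le_pow_right (by omega) (by omega)).trans hn))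
      rw [pow_mul]
      exact Nat.pow_le_pow_left hq12 _
    exact hC0 (l + 2) (by simpa using hq) r hrC hr2
  · refine main r hr ?_
    have hqne : q ^ (4 * 10 ^ 7 * q + 1) ≤ n := by
      refine le_trans (Nat.pow_le_pow_right (by omega) ?_) hn
      nlinarith [Nat.zero_le (C0 * q)]
    have hrC := low r (4 * 10 ^ 7 * q) hr hqne
    have hr0 : 1 ≤ r := (Nat.one_le_pow _ _ (by omega)).trans hrC
    refine H108.main3 (by omega) ⟨?_, ?_, hr0⟩ ?_
    · simpa using h1
    · rw [Nat.add_sub_cancel]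
      have hcop : Nat.Coprime (q + 1) q := by simp
      exact hcop.mul_dvd_of_dvd_of_dvd h2 (h1.mul_left r)
    · refine le_trans ?_ hrC
      calc (q + 1) ^ (10 ^ 7 * (q + 1)) ≤ (q ^ 2) ^ (10 ^ 7 * (q + 1)) :=
            Nat.pow_le_pow_left hq12 _
        _ = q ^ (2 * (10 ^ 7 * (q + 1))) := by rw [← pow_mul]
        _ ≤ q ^ (4 * 10 ^ 7 * q) := Nat.pow_le_pow_right (by omega) (by nlinarith)

end Pool.Agent.Results.MP_409a13_co.Resolvable
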