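import Pool.Agent.X172.ManyS.TwoPow
import Pool.Agent.W855.Conv

/-!
# Resolvable Steiner systems `S(n,q,2)`, `q` a power of two: a polynomial threshold

There is an absolute constant `C` such that for every `q = 2 ^ s`, `s ≥ 1`, and every `n ≥ q ^ C` a
resolvable Steiner system `S(n,q,2)` exists if and only if `n ≡ q` modulo `q (q - 1)`.

Proof.  Resolvable systems `S((q-1) k + 1,q,2)` correspond to frames with `k` groups of size `q - 1`;
the set of the numbers `k` of groups is closed under pairwise balanced designs (Ray-Chaudhuri and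
Wilson).  It contains `q + 1` (affine plane) and, as `q` is a power of two, also `2 q + 1`: the
external lines of a regular hyperoval of the projective plane of order `2 q`, with the points off the
hyperoval as blocks, form a resolvable `S(q (2 q - 1),q,2)`.  The known polynomial threshold for
Steiner systems with block sizes `q + 1` and `2 q + 1` gives all large `k ≡ 1` mod `q (q + 1)` and mod
`2 q (2 q + 1)`; since `q + 1` and `2 (2 q + 1)` are coprime, truncated transversal designs with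
`(q + 1) ^ c + 1` groups and weights `q` give all `k ≡ 1` mod `q` that are at least a power of `q`.
-/

set_option autoImplicit false

namespace Pool.Agent.Results.MP_409a13_co.ResolvableTwoPower

open Finset Pool.Agent.X172.TP

/-- `B` is a Steiner system `S(n,q,2)` on the set `Fin n` -/
def IsSteiner (n q : ℕ) (B : Finset (Finset (Fin n))) : Prop :=
  (∀ b ∈ B, b.card = q) ∧ ∀ T : Finset (Fin n), T.card = 2 → ∃! b, b ∈ B ∧ T ⊆ b

/-- The family `B` is resolvable: it can be partitioned into families `P` (parallel classes) such that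
every point is in exactly one member of `P`. -/
def IsResolvable (n : ℕ) (B : Finset (Finset (Fin n))) : Prop :=
  ∃ 𝓟 : Finset (Finset (Finset (Fin n))), (∀ P ∈ 𝓟, P ⊆ B ∧ ∀ x, ∃! b, b ∈ P ∧ x ∈ b) ∧
    ∀ b ∈ B, ∃! P, P ∈ 𝓟 ∧ b ∈ P

lemma steiner_of {n q : ℕ} {B : Finset (Finset (Fin n))} (h : Pool.Agent.X172.Res.IsSt (Fin n) q B) :
    IsSteiner n q B := by
  refine ⟨h.1, fun T hT => ?_⟩
  obtain ⟨x, y, hxy, rfl⟩ := card_eq_two.1 hT
  obtain ⟨b, ⟨hb, hx, hy⟩, hu⟩ := h.2 x y hxy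
  refine ⟨b, ⟨hb, by rw [insert_subset_iff, singleton_subset_iff]; exact ⟨hx, hy⟩⟩, ?_⟩
  rintro c ⟨hc, hT'⟩
  rw [insert_subset_iff, singleton_subset_iff] at hT'
  exact hu c ⟨hc, hT'⟩

/-- the necessary condition -/
lemma necessary {n q : ℕ} (hq : 2 ≤ q) (hn : q < n) {B : Finset (Finset (Fin n))}
    (h : IsSteiner n q B) (hr : IsResolvable n B) : n ≡ q [MOD q * (q - 1)] := by
  classical
  have h1 : (q - 1) ∣ (n - 1) := Pool.Agent.W855.necessary_one (by omega) h.1 h.2
  obtain ⟨𝓟, hP1, hP2⟩ := hr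
  obtain ⟨x, y, hxy⟩ : ∃ x y : Fin n, x ≠ y := ⟨⟨0, by omega⟩, ⟨1, by omega⟩, by simp⟩
  obtain ⟨b, ⟨hb, -⟩, -⟩ := h.2 {x, y} (card_pair hxy)
  obtain ⟨P, ⟨hP, -⟩, -⟩ := hP2 b hb
  have h2 : (univ : Finset (Fin n)) = P.biUnion id := by
    ext v
    obtain ⟨c, ⟨hc, hv⟩, -⟩ := (hP1 P hP).2 v
    simp only [mem_univ, mem_biUnion, id, true_iff]
    exact ⟨c, hc, hv⟩
  have h3 : n = P.card * q := by
    have h4 := congrArg Finset.card h2
    rw [card_univ, Fintype.card_fin, card_biUnion, sum_congr rfl (fun c hc => by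
      change c.card = q
      exact h.1 c ((hP1 P hP).1 hc)), sum_const, smul_eq_mul] at h4
    · exact h4
    · intro c hc d hd hcd
      change Disjoint c d
      rw [disjoint_left]
      intro v hv hv'
      obtain ⟨e, -, hu⟩ := (hP1 P hP).2 v
      exact hcd ((hu c ⟨hc, hv⟩).trans (hu d ⟨hd, hv'⟩).symm)
  have hcop : Nat.Coprime q (q - 1) := by
    obtain ⟨l, rfl⟩ : ∃ l, q = l + 1 := ⟨q - 1, by omega⟩
    simp
  refine (Nat.modEq_and_modEq_iff_modEq_mul hcop).1 ⟨?_, ?_⟩
  · exact ((Nat.modEq_iff_dvd' hn.le).2 (by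
      rw [h3]
      exact Nat.dvd_sub (Dvd.intro_left _ rfl) dvd_rfl)).symm
  · refine ((Nat.modEq_iff_dvd' hn.le).2 ?_).symm
    have e1 : n - q = (n - 1) - (q - 1) := by omega
    rw [e1]
    exact Nat.dvd_sub h1 dvd_rfl

/-- There is an absolute constant `C` such that for every power `q ≥ 2` of two and every `n ≥ q ^ C`
there is a resolvable Steiner system `S(n,q,2)` if and only if `n ≡ q` modulo `q (q - 1)`. -/
theorem result : ∃ C : ℕ, ∀ s : ℕ, 1 ≤ s → ∀ q : ℕ, q = 2 ^ s → ∀ n : ℕ, q ^ C ≤ n →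
    ((∃ B : Finset (Finset (Fin n)), IsSteiner n q B ∧ IsResolvable n B) ↔
      n ≡ q [MOD q * (q - 1)]) := by
  obtain ⟨C, hC⟩ := fr_all
  refine ⟨C + 2, ?_⟩
  intro s hs q hq n hn
  have hq2 : 2 ≤ q := by
    rw [hq]
    calc 2 = 2 ^ 1 := by norm_num
      _ ≤ 2 ^ s := Nat.pow_le_pow_right (by norm_num) hs
  have hqn : q ^ 2 ≤ n := (Nat.pow_le_pow_right (by omega) (by omega)).trans hn
  have hqn' : q < n := by nlinarith
  constructor
  · rintro ⟨B, hB, hR⟩
    exact necessary hq2 hqn' hB hR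
  · intro hmod
    obtain ⟨k, hk⟩ := (Nat.modEq_iff_dvd' hqn'.le).1 hmod.symm
    have hnk : n = q * (q - 1) * k + q := by omega
    have hkC : q ^ C ≤ k := by
      by_contra hcon
      push Not at hcon
      have h1 : q * (q - 1) * (k + 1) ≤ q * (q - 1) * q ^ C := Nat.mul_le_mul_left _ hcon
      have h2 : q ^ (C + 2) = q * q * q ^ C := by ring
      obtain ⟨l, rfl⟩ : ∃ l, q = l + 2 := ⟨q - 2, by omega⟩
      have e1 : l + 2 - 1 = l + 1 := by omega
      rw [e1] at h1 hnk
      have h3 : 1 ≤ (l + 2) ^ C := Nat.one_le_pow _ _ (by omega)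
      nlinarith [Nat.zero_le (l * (l + 2) ^ C), Nat.zero_le (l * l)]
    have hfr : FR q (q * k + 1) := by
      rw [hq] at hkC ⊢
      exact hC s hs k hkC
    obtain ⟨B, hB1, hB2⟩ := Pool.Agent.X172.Fr.res_of_AF (n := n) hq2 (by
      rw [hnk]
      obtain ⟨l, rfl⟩ : ∃ l, q = l + 1 := ⟨q - 1, by omega⟩
      rw [Nat.add_sub_cancel]
      ring) hfr
    exact ⟨B, steiner_of hB1, hB2⟩

end Pool.Agent.Results.MP_409a13_co.ResolvableTwoPower
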