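import Pool.Agent.X18.SteinerEmb2
import Pool.Agent.H108R2.Bound3

/-!
# Subsystems of Steiner systems `S(n,q,2)`: a Doyen-Wilson theorem with explicit bounds

There is an absolute constant `C` such that every Steiner system `S(m,q,2)` is a subsystem of a
Steiner system `S(n,q,2)` for all `n` that satisfy the divisibility condition (D) and

* `n ≥ q^C m`, if `q` is a prime power;
* `n ≥ q^(C q) m`, for all `q ≥ 2`.
-/

set_option autoImplicit false

namespace Pool.Agent.Results.MP_409a13_co.Subsystems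

open Finset

/-- `B` is a Steiner system `S(n,q,2)` on the set `Fin n` -/
def IsSteiner (n q : ℕ) (B : Finset (Finset (Fin n))) : Prop :=
  (∀ b ∈ B, b.card = q) ∧ ∀ T : Finset (Fin n), T.card = 2 → ∃! b, b ∈ B ∧ T ⊆ b

/-- There is an absolute constant `C` such that for all `q ≥ 2`, `m ≥ 1` and `n` with `n ≥ q^C m` and
`q` a prime power, or with `n ≥ q^(C q) m`, for which the divisibility condition (D) holds, every
Steiner system `S(m,q,2)` (with block set `B₀`) is a subsystem of a Steiner system `S(n,q,2)`. -/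
theorem result : ∃ C : ℕ, ∀ q m n : ℕ, 2 ≤ q → 1 ≤ m →
    ((IsPrimePow q ∧ q ^ C * m ≤ n) ∨ q ^ (C * q) * m ≤ n) →
    (∀ i < 2, (q - i).choose (2 - i) ∣ (n - i).choose (2 - i)) →
    ∀ B₀ : Finset (Finset (Fin m)), IsSteiner m q B₀ →
      ∃ (h : m ≤ n) (B : Finset (Finset (Fin n))), IsSteiner n q B ∧
        ∀ b ∈ B₀, b.map (Fin.castLEEmb h) ∈ B := by
  classical
  obtain ⟨C, hC⟩ := Pool.Agent.X18.SEmb.emb_of_thr
  obtain ⟨C1, hC1⟩ := Pool.Agent.W855.threshold_main
  refine ⟨max ((C1 + 1) * C) (10 ^ 7 * C), ?_⟩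
  intro q m n hq hm hn hD B₀ h0
  have hqC : ∀ e : ℕ, m ≤ q ^ e * m := fun e => Nat.le_mul_of_pos_left _ (by positivity)
  have hmn : m ≤ n := by
    rcases hn with ⟨-, hn⟩ | hn
    · exact (hqC _).trans hn
    · exact (hqC _).trans hn
  rcases Nat.lt_or_ge q 3 with h3 | h3
  · -- all pairs
    have hq2 : q = 2 := by omega
    subst hq2
    refine ⟨hmn, powersetCard 2 univ, ⟨fun b hb => (mem_powersetCard.1 hb).2, fun T hT => ?_⟩, ?_⟩
    · refine ⟨T, ⟨mem_powersetCard.2 ⟨subset_univ _, hT⟩, subset_rfl⟩, ?_⟩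
      rintro b ⟨hb1, hb2⟩
      exact (eq_of_subset_of_card_le hb2 (by rw [hT, (mem_powersetCard.1 hb1).2])).symm
    · intro b hb
      rw [mem_powersetCard, card_map]
      exact ⟨subset_univ _, h0.1 b hb⟩
  · have hn0 : 1 ≤ n := hm.trans hmn
    have hA : H108.Adm q n := by
      refine ⟨by simpa using hD 1 (by omega), ?_, hn0⟩
      rw [← Pool.Agent.W855.two_mul_choose', ← Pool.Agent.W855.two_mul_choose']
      exact mul_dvd_mul_left 2 (by simpa using hD 0 (by omega))
    rcases hn with ⟨hpp, hn⟩ | hn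
    · have hthr : Pool.Agent.X18.SEmb.Thr q (q ^ (C1 + 1)) := fun v hv hav =>
        hC1 q hpp h3 v ((Nat.pow_le_pow_right (by omega) (by omega)).trans hv) hav
      refine hC q (q ^ (C1 + 1)) h3 (Nat.le_self_pow (by omega) q) hthr m n hm ?_ hA B₀ h0
      refine le_trans ?_ hn
      rw [← pow_mul]
      exact Nat.mul_le_mul_right _ (Nat.pow_le_pow_right (by omega) (le_max_left _ _))
    · have hthr : Pool.Agent.X18.SEmb.Thr q (q ^ (10 ^ 7 * q)) := fun v hv hav =>
        H108.main3 h3 hav hv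
      have h7 : 10 ^ 7 * q ≠ 0 := by positivity
      refine hC q (q ^ (10 ^ 7 * q)) h3 (Nat.le_self_pow h7 q) hthr m n hm ?_ hA B₀ h0
      refine le_trans ?_ hn
      rw [← pow_mul]
      refine Nat.mul_le_mul_right _ (Nat.pow_le_pow_right (by omega) ?_)
      have h8 : 10 ^ 7 * q * C = 10 ^ 7 * C * q := by ring
      rw [h8]
      exact Nat.mul_le_mul_right _ (le_max_right _ _)

end Pool.Agent.Results.MP_409a13_co.Subsystems
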